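import Pool.Agent.Lib.MP_7f581e_Z.Interface

/-!
# Package EP: neutral homomorphisms and the central step

`NHom p ℓ x H ρ`: `H` is an open subgroup of `Gx p x` containing almost all of the inertia at the
zeros of `x`, fixing the `ℓ`-th roots of unity, and `ρ : H →* P` is a homomorphism of finite level
which is trivial on the inertia groups at all the `ℓ`-bad places.  No surjectivity is required.
`CStep p`: such homomorphisms can be lifted through a central extension with kernel of order `ℓ`,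
after replacing `x` by a root of order `ℓ ^ j`.
-/

namespace MP7Z

/-- A neutral homomorphism from an open subgroup of the absolute Galois group of `𝔽_p(x)`. -/
structure NHom (p : ℕ) [Fact p.Prime] (ℓ : ℕ) {Ω : Type} [Field Ω] [Algebra (ZMod p) Ω] (x : Ω)
    (H : Subgroup (Ω ≃ₐ[ZMod p] Ω)) {P : Type} [Group P] (ρ : H →* P) : Prop where
  stage : IsStage p x
  le : H ≤ Gx p x
  opn : ∃ S : Finset Ω, ∀ γ ∈ Gx p x, (∀ s ∈ S, γ s = s) → γ ∈ H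
  mu : ∀ ζ : Ω, ζ ^ ℓ = 1 → ∀ γ ∈ H, γ ζ = ζ
  zero : ∀ V : ValuationSubring Ω, V ≠ ⊤ → V.valuation x < 1 → ∀ γ ∈ Gx p x, γ ∈ Inert p V →
    ∃ a : ℕ, a.Coprime ℓ ∧ γ ^ a ∈ H
  fin : FinLevel ρ
  neu : ∀ V : ValuationSubring Ω, V ≠ ⊤ → BadV ℓ x V → ∀ γ : H,
    (γ : Ω ≃ₐ[ZMod p] Ω) ∈ Inert p V → ρ γ = 1

/-- **The central step.** -/
def CStep (p : ℕ) [Fact p.Prime] : Prop :=
  ∀ (ℓ : ℕ), ℓ.Prime → ℓ ≠ p →
  ∀ (Ω : Type) [Field Ω] [Algebra (ZMod p) Ω] (x : Ω) (H : Subgroup (Ω ≃ₐ[ZMod p] Ω))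
    (P : Type) [Group P] [Finite P] (ρ : H →* P), IsPGroup ℓ P → NHom p ℓ x H ρ →
  ∀ (P' : Type) [Group P'] [Finite P'] (f : P' →* P), Function.Surjective f →
    (∀ a ∈ f.ker, ∀ b : P', a * b = b * a) → Nat.card f.ker = ℓ →
  ∃ (x' : Ω) (j : ℕ), x' ^ (ℓ ^ j) = x ∧
    ∃ ρ' : (H ⊓ Gx p x' : Subgroup (Ω ≃ₐ[ZMod p] Ω)) →* P', NHom p ℓ x' (H ⊓ Gx p x') ρ' ∧
      ∀ (γ : Ω ≃ₐ[ZMod p] Ω) (h : γ ∈ H ⊓ Gx p x'), f (ρ' ⟨γ, h⟩) = ρ ⟨γ, h.1⟩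

end MP7Z
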